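import Pool.Agent.H63.GS1

set_option autoImplicit false

namespace Pool.Agent.Results.MP_020e3f_lc.DoubleExp

open Pool.Agent.H63.GS

theorem result (P : Polynomial ℝ) :
    ∃ (N : Finset ℕ) (R : Finset (ℕ × List (ℕ ⊕ ℤ))) (S a b : ℕ),
      S ∈ N ∧ (∀ r ∈ R, r.1 ∈ N ∧ r.2 ≠ [] ∧ ∀ Y, Sum.inl Y ∈ r.2 → Y ∈ N) ∧ Thin R ∧
      (∃ s, DerFrom R S a b s) ∧
      ∀ s, DerFrom R S a b s →
        ∀ n ≤ gsize N R + nbits a + nbits b, (2 : ℝ) ^ (P.eval (n : ℝ)) < s :=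
  main P

end Pool.Agent.Results.MP_020e3f_lc.DoubleExp
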